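import Pool.Agent.H98.LvdP.Upper

/-! From multiplier bounds on windows of `|k|/4^t` to a bound for every odd `k`. -/

set_option autoImplicit false

namespace Pool.Agent.H6.LvdP3

open Pool.Agent.H98.LvdP

/-- Every odd `k` with `A * 4^t ≤ B * |k|` and `B' * |k| ≤ A' * 4^t`, `t ≥ t0`, has a
multiplier `m ≤ 4^(C * t^c)`. -/
def Win (C c t0 : ℕ) (A B A' B' : ℤ) : Prop :=
  ∀ k : ℤ, Odd k → ∀ t : ℕ, t0 ≤ t → A * 4 ^ t ≤ B * |k| → B' * |k| ≤ A' * 4 ^ t →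
    ∃ m : ℤ, IsMultiplier k m ∧ m ≤ 4 ^ (C * t ^ c)

lemma Win.mono {C c t0 C' c' t0' : ℕ} {A B A' B' : ℤ} (h : Win C c t0 A B A' B')
    (hC : C ≤ C') (hc : c ≤ c') (ht : t0 ≤ t0') (h1 : 1 ≤ t0') : Win C' c' t0' A B A' B' := by
  intro k hk t htt ha hb
  obtain ⟨m, hm, hb⟩ := h k hk t (ht.trans htt) ha hb
  refine ⟨m, hm, hb.trans ?_⟩
  apply pow_le_pow_right₀ (by norm_num)
  exact Nat.mul_le_mul hC (Nat.pow_le_pow_right (by omega) hc)

/-- Two adjacent windows: `A'/B' ≥ E/F` is written `E * B' ≤ A' * F`. -/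
lemma Win.union {C c t0 : ℕ} {A B A' B' E F E' F' : ℤ} (h1 : Win C c t0 A B A' B')
    (h2 : Win C c t0 E F E' F') (hB : 0 < B') (hF : 0 < F) (h : E * B' ≤ A' * F) :
    Win C c t0 A B E' F' := by
  intro k hk t htt ha hb
  by_cases hc : B' * |k| ≤ A' * 4 ^ t
  · exact h1 k hk t htt ha hc
  · refine h2 k hk t htt ?_ hb
    push Not at hc
    have h4 : (0 : ℤ) < 4 ^ t := by positivity
    have h5 : A' * F * 4 ^ t ≤ F * (B' * |k|) := by nlinarith
    have h6 : B' * (E * 4 ^ t) ≤ B' * (F * |k|) := by nlinarith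
    exact le_of_mul_le_mul_left h6 hB

/-- If the full window `4^t ≤ |k| ≤ 4^(t+1)` is covered for `t ≥ t0`, then every odd `k` has a
multiplier `m ≤ exp (C' (log |k|)^c)`, `C' = max C (2^(t0+2))`. -/
theorem all_of_win {C c t0 : ℕ} (hc : 1 ≤ c) (h : Win C c t0 1 1 4 1) (k : ℤ)
    (hk : Odd k) :
    ∃ m : ℤ, IsMultiplier k m ∧
      (m : ℝ) ≤ Real.exp (((max C (2 ^ (t0 + 2)) : ℕ) : ℝ) * Real.log |(k : ℝ)| ^ c) := by
  obtain ⟨D, hD⟩ : ∃ D : ℕ, D = max C (2 ^ (t0 + 2)) := ⟨_, rfl⟩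
  rw [← hD]
  have hk0 : k ≠ 0 := by rintro rfl; simp at hk
  have hk1 : 1 ≤ |k| := Int.one_le_abs hk0
  have hlog4 : (1 : ℝ) ≤ Real.log 4 := by
    have h2 : Real.log 4 = 2 * Real.log 2 := by
      rw [show (4 : ℝ) = 2 ^ (2 : ℕ) by norm_num, Real.log_pow]; norm_num
    have := Real.log_two_gt_d9
    rw [h2]; linarith
  have hlog42 : Real.log 4 ≤ 2 := by
    have h2 : Real.log 4 = 2 * Real.log 2 := by
      rw [show (4 : ℝ) = 2 ^ (2 : ℕ) by norm_num, Real.log_pow]; norm_num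
    have := Real.log_two_lt_d9
    rw [h2]; linarith
  have hpow : ∀ n : ℕ, ((4 : ℝ) ^ n) = Real.exp (n * Real.log 4) := by
    intro n
    rw [Real.exp_nat_mul, Real.exp_log (by norm_num)]
  by_cases h3 : |k| ≤ 2
  · -- `|k| = 1`
    have h1 : |k| = 1 := by
      have hodd : Odd |k| := by
        rcases abs_choice k with h | h <;> rw [h]
        · exact hk
        · exact hk.neg
      obtain ⟨j, hj⟩ := hodd
      omega
    refine ⟨1, ?_, ?_⟩
    · have hL : (1 : ℤ) ∈ L := ⟨0, fun _ => 1, fun _ => by simp, by simp⟩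
      refine ⟨by norm_num, hL, ?_⟩
      rcases (abs_eq (by norm_num : (0 : ℤ) ≤ 1)).1 h1 with h | h <;> rw [h]
      · simpa using hL
      · have := L_neg hL
        simpa using this
    · have : |(k : ℝ)| = 1 := by exact_mod_cast h1
      rw [this]
      simp only [Real.log_one, Int.cast_one]
      rw [zero_pow (by omega)]
      simp
  push Not at h3
  have h3' : 3 ≤ |k| := by omega
  have hkR : (3 : ℝ) ≤ |(k : ℝ)| := by exact_mod_cast h3'
  have hlog3 : (1 : ℝ) ≤ Real.log |(k : ℝ)| := by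
    rw [Real.le_log_iff_exp_le (by linarith)]
    have := Real.exp_one_lt_d9
    linarith
  have hmax1 : (C : ℝ) ≤ (D : ℝ) := by
    have : C ≤ D := by rw [hD]; exact le_max_left _ _
    exact_mod_cast this
  have hmax2 : (2 ^ (t0 + 2) : ℝ) ≤ (D : ℝ) := by
    have : 2 ^ (t0 + 2) ≤ D := by rw [hD]; exact le_max_right _ _
    exact_mod_cast this
  by_cases hs : |k| ≤ 4 ^ t0
  · -- small `k`
    obtain ⟨m, hm, hb⟩ := exists_multiplier hk (r := t0) (by
      have : (0 : ℤ) < 4 ^ t0 := by positivity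
      linarith)
    refine ⟨m, hm, ?_⟩
    have h1 : (4 : ℤ) ^ (2 ^ (t0 + 1) - 1) ≤ 4 ^ (2 ^ (t0 + 1)) :=
      pow_le_pow_right₀ (by norm_num) (Nat.sub_le _ _)
    have h2 : m ≤ 4 ^ (2 ^ (t0 + 1)) := by
      have := hm.1
      omega
    have h2R : (m : ℝ) ≤ 4 ^ (2 ^ (t0 + 1)) := by exact_mod_cast h2
    refine h2R.trans ?_
    rw [hpow]
    apply Real.exp_le_exp.2
    have hx : (1 : ℝ) ≤ Real.log |(k : ℝ)| ^ c := one_le_pow₀ hlog3
    have hy : (((2 ^ (t0 + 1) : ℕ) : ℝ) * Real.log 4) ≤ 2 ^ (t0 + 2) := by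
      push_cast
      have : (0 : ℝ) ≤ 2 ^ (t0 + 1) := by positivity
      calc (2 : ℝ) ^ (t0 + 1) * Real.log 4 ≤ 2 ^ (t0 + 1) * 2 := by gcongr
        _ = 2 ^ (t0 + 2) := by ring
    calc (((2 ^ (t0 + 1) : ℕ) : ℝ) * Real.log 4) ≤ 2 ^ (t0 + 2) := hy
      _ ≤ (D : ℝ) := hmax2
      _ = (D : ℝ) * 1 := by ring
      _ ≤ _ := by
        apply mul_le_mul_of_nonneg_left hx
        exact le_trans (by positivity) hmax2
  push Not at hs
  -- large `k`
  obtain ⟨t, ht1, ht2⟩ : ∃ t : ℕ, 4 ^ t ≤ |k| ∧ |k| < 4 ^ (t + 1) := by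
    have hlt : k.natAbs ≠ 0 := by omega
    refine ⟨Nat.log 4 k.natAbs, ?_, ?_⟩
    · have := Nat.pow_log_le_self 4 hlt
      have h' : ((4 ^ Nat.log 4 k.natAbs : ℕ) : ℤ) ≤ (k.natAbs : ℤ) := by exact_mod_cast this
      rw [Int.natCast_natAbs] at h'
      exact_mod_cast h'
    · have := Nat.lt_pow_succ_log_self (b := 4) (by norm_num) k.natAbs
      have h' : ((k.natAbs : ℕ) : ℤ) < ((4 ^ (Nat.log 4 k.natAbs + 1) : ℕ) : ℤ) := by
        exact_mod_cast this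
      rw [Int.natCast_natAbs] at h'
      exact_mod_cast h'
  have htt : t0 ≤ t := by
    by_contra hlt
    push Not at hlt
    have : (4 : ℤ) ^ (t + 1) ≤ 4 ^ t0 := pow_le_pow_right₀ (by norm_num) hlt
    omega
  obtain ⟨m, hm, hb⟩ := h k hk t htt (by linarith) (by
    have : (4 : ℤ) ^ (t + 1) = 4 * 4 ^ t := by ring
    omega)
  refine ⟨m, hm, ?_⟩
  have hbR : (m : ℝ) ≤ 4 ^ (C * t ^ c) := by exact_mod_cast hb
  refine hbR.trans ?_
  rw [hpow]
  apply Real.exp_le_exp.2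
  have htlog : (t : ℝ) * Real.log 4 ≤ Real.log |(k : ℝ)| := by
    rw [← Real.log_rpow (by norm_num), Real.rpow_natCast]
    apply Real.log_le_log (by positivity)
    exact_mod_cast ht1
  have h1 : (t : ℝ) ^ c * Real.log 4 ≤ Real.log |(k : ℝ)| ^ c := by
    calc (t : ℝ) ^ c * Real.log 4 ≤ (t : ℝ) ^ c * Real.log 4 ^ c := by
          apply mul_le_mul_of_nonneg_left _ (by positivity)
          calc Real.log 4 = Real.log 4 ^ 1 := by ring
            _ ≤ Real.log 4 ^ c := pow_le_pow_right₀ hlog4 hc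
      _ = ((t : ℝ) * Real.log 4) ^ c := by rw [mul_pow]
      _ ≤ _ := pow_le_pow_left₀ (by positivity) htlog c
  have h2 : (0 : ℝ) ≤ Real.log |(k : ℝ)| ^ c := by positivity
  calc ((C * t ^ c : ℕ) : ℝ) * Real.log 4 = C * ((t : ℝ) ^ c * Real.log 4) := by
        push_cast; ring
    _ ≤ C * Real.log |(k : ℝ)| ^ c := by gcongr
    _ ≤ D * Real.log |(k : ℝ)| ^ c := by gcongr

/-- From a bound `|k|^(C log log |k|)` to a bound `4^(8 C t^2)`. -/
lemma pow_of_loglog {C t : ℕ} (ht : 1 ≤ t) {k m : ℤ} (hk : 3 ≤ |k|) (hk4 : |k| ≤ 4 ^ (t + 1))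
    (hm : (m : ℝ) ≤ |(k : ℝ)| ^ (C * Real.log (Real.log |(k : ℝ)|))) :
    m ≤ 4 ^ (8 * C * t ^ 2) := by
  have hlog42 : Real.log 4 ≤ 2 := by
    have h2 : Real.log 4 = 2 * Real.log 2 := by
      rw [show (4 : ℝ) = 2 ^ (2 : ℕ) by norm_num, Real.log_pow]; norm_num
    have := Real.log_two_lt_d9
    rw [h2]; linarith
  have hlog40 : 0 < Real.log 4 := Real.log_pos (by norm_num)
  have hkR : (3 : ℝ) ≤ |(k : ℝ)| := by exact_mod_cast hk
  have hl0 : 0 < Real.log |(k : ℝ)| := Real.log_pos (by linarith)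
  have hle : Real.log |(k : ℝ)| ≤ (t + 1) * Real.log 4 := by
    have h1 : |(k : ℝ)| ≤ 4 ^ (t + 1) := by exact_mod_cast hk4
    calc Real.log |(k : ℝ)| ≤ Real.log ((4 : ℝ) ^ (t + 1)) :=
          Real.log_le_log (by linarith) h1
      _ = (t + 1) * Real.log 4 := by rw [Real.log_pow]; push_cast; ring
  have hll : Real.log (Real.log |(k : ℝ)|) ≤ Real.log |(k : ℝ)| := by
    have := Real.log_le_sub_one_of_pos hl0
    linarith
  have h1 : (m : ℝ) ≤ Real.exp (C * Real.log |(k : ℝ)| ^ 2) := by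
    refine hm.trans ?_
    rw [Real.rpow_def_of_pos (by linarith)]
    apply Real.exp_le_exp.2
    have : (C : ℝ) * Real.log (Real.log |(k : ℝ)|) ≤ C * Real.log |(k : ℝ)| := by gcongr
    nlinarith
  have htR : (1 : ℝ) ≤ t := by exact_mod_cast ht
  have h2 : (C : ℝ) * Real.log |(k : ℝ)| ^ 2 ≤ ((8 * C * t ^ 2 : ℕ) : ℝ) * Real.log 4 := by
    have h3 : Real.log |(k : ℝ)| ^ 2 ≤ ((2 * t) * Real.log 4) ^ 2 := by
      apply pow_le_pow_left₀ hl0.le
      refine hle.trans ?_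
      gcongr
      linarith
    have h4 : ((2 * t) * Real.log 4) ^ 2 ≤ 8 * t ^ 2 * Real.log 4 := by
      have h5 : Real.log 4 ^ 2 ≤ 2 * Real.log 4 := by nlinarith
      calc ((2 * (t : ℝ)) * Real.log 4) ^ 2 = 4 * t ^ 2 * Real.log 4 ^ 2 := by ring
        _ ≤ 4 * t ^ 2 * (2 * Real.log 4) := by gcongr
        _ = 8 * t ^ 2 * Real.log 4 := by ring
    calc (C : ℝ) * Real.log |(k : ℝ)| ^ 2 ≤ C * (8 * t ^ 2 * Real.log 4) := by
          gcongr
          exact h3.trans h4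
      _ = ((8 * C * t ^ 2 : ℕ) : ℝ) * Real.log 4 := by push_cast; ring
  have h3 : (m : ℝ) ≤ ((4 ^ (8 * C * t ^ 2) : ℤ) : ℝ) := by
    refine h1.trans ((Real.exp_le_exp.2 h2).trans ?_)
    rw [Real.exp_nat_mul, Real.exp_log (by norm_num)]
    push_cast
    exact le_rfl
  exact_mod_cast h3

end Pool.Agent.H6.LvdP3
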