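import Pool.Agent.H6.LvdP3.Union
import Pool.Agent.H62.LV.ToWin
import Pool.Agent.H62.RP2.CoreB
import Pool.Agent.H91.RP.Window2

/-! All odd `k`: union of the windows of `|k| / 4^t`. -/

set_option autoImplicit false

namespace Pool.Agent.H6.LvdP3

open Pool.Agent.H98.LvdP

/-- the four windows together -/
theorem win_all : ∃ C t0 : ℕ, Win C 50 t0 1 1 4 1 := by
  obtain ⟨C2, h2⟩ := Pool.Agent.H62.RP2.near2
  obtain ⟨C1, hC1⟩ : ∃ C1 : ℕ, C1 = 10 ^ 9 * 4 ^ 12 := ⟨_, rfl⟩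
  have h4 := H91RP.win34 C1 hC1
  have h1 := Pool.Agent.H62.LV.win_AB
  have h3 := Pool.Agent.H62.LV.win_CE
  obtain ⟨C4, hC4⟩ : ∃ C4 : ℕ, C4 = 9 * C1 * 2 ^ 20 := ⟨_, rfl⟩
  rw [← hC4] at h4
  obtain ⟨C, hC⟩ : ∃ C : ℕ, 4030 ≤ C ∧ C2 ≤ C ∧ C4 ≤ C :=
    ⟨4030 + C2 + C4, by omega, by omega, by omega⟩
  refine ⟨C, 140, ?_⟩
  have g1 : Win C 50 140 1 1 7 4 := h1.mono (by omega) (by norm_num) (by norm_num) (by norm_num)
  have g2 : Win C 50 140 7 4 17 8 := h2.mono hC.2.1 le_rfl (by norm_num) (by norm_num)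
  have g3 : Win C 50 140 17 8 3 1 := h3.mono hC.1 (by norm_num) (by norm_num) (by norm_num)
  have g4 : Win C 50 140 3 1 4 1 := h4.mono hC.2.2 (by norm_num) le_rfl (by norm_num)
  exact ((g1.union g2 (by norm_num) (by norm_num) (by norm_num)).union g3 (by norm_num)
    (by norm_num) (by norm_num)).union g4 (by norm_num) (by norm_num) (by norm_num)

/-- every odd `k` has a multiplier `m ≤ exp (C (log |k|)^50)` -/
theorem all_odd : ∃ C : ℝ, ∀ k : ℤ, Odd k → ∃ m : ℤ, IsMultiplier k m ∧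
    (m : ℝ) ≤ Real.exp (C * Real.log |(k : ℝ)| ^ 50) := by
  obtain ⟨C, t0, h⟩ := win_all
  exact ⟨_, fun k hk => all_of_win (by norm_num) h k hk⟩

end Pool.Agent.H6.LvdP3
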